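import Mathlib

open Finset

namespace Pool.Agent.Results.MP_ee0f4e_nt.NeverIntegral

/-- `IsCoeff r s c` says that `c` is the sequence of coefficients `c_k^(r,s)`: for all `n`,
the power sum `A_n^(r)` equals `∑ k ≤ n, (n choose k)^s (n + k choose k)^s c_k`. -/
def IsCoeff (r s : ℕ) (c : ℕ → ℚ) : Prop :=
  ∀ n : ℕ, ∑ k ∈ Finset.range (n + 1), (n.choose k : ℚ) ^ r * ((n + k).choose k : ℚ) ^ r
    = ∑ k ∈ Finset.range (n + 1), (n.choose k : ℚ) ^ s * ((n + k).choose k : ℚ) ^ s * c k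

lemma step3 (a e : ℤ) (v : ℕ) : ∃ q : ℤ, (a + 9 * e) ^ (3 ^ v) = a ^ (3 ^ v) + 3 ^ (v + 2) * q ∧
    (3 : ℤ) ∣ a * q - e * a ^ (3 ^ v) := by
  induction v with
  | zero => exact ⟨e, by ring, by simp [mul_comm]⟩
  | succ v ih =>
    obtain ⟨q, h1, h2⟩ := ih
    refine ⟨(a ^ (3 ^ v)) ^ 2 * q + 3 * (3 ^ (v + 1) * (a ^ (3 ^ v)) * q ^ 2
        + 3 ^ (2 * v + 2) * q ^ 3), ?_, ?_⟩
    · rw [pow_succ 3 v, pow_mul, h1, pow_mul]
      ring
    · obtain ⟨k, hk⟩ := h2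
      have hpow : a ^ (3 ^ (v + 1)) = (a ^ (3 ^ v)) ^ 3 := by rw [← pow_mul, ← pow_succ]
      rw [hpow]
      refine ⟨(a ^ (3 ^ v)) ^ 2 * k + a * (3 ^ (v + 1) * (a ^ (3 ^ v)) * q ^ 2
        + 3 ^ (2 * v + 2) * q ^ 3), ?_⟩
      linear_combination (a ^ (3 ^ v)) ^ 2 * hk

lemma stept (A q : ℤ) (m t : ℕ) (hm : 1 ≤ m) : ∃ w : ℤ, (A + 3 ^ m * q) ^ t = A ^ t + 3 ^ m * w ∧
    (3 : ℤ) ∣ A * w - t * q * A ^ t := by
  induction t with
  | zero => exact ⟨0, by simp, by simp⟩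
  | succ t ih =>
    obtain ⟨w, h1, h2⟩ := ih
    obtain ⟨k, hk⟩ := h2
    obtain ⟨m', rfl⟩ : ∃ m', m = m' + 1 := ⟨m - 1, by omega⟩
    refine ⟨A * w + q * A ^ t + 3 ^ (m' + 1) * w * q, ?_, ?_⟩
    · rw [pow_succ, h1]; ring
    · refine ⟨A * k + A * (3 ^ m' * w * q), ?_⟩
      push_cast
      linear_combination A * hk

lemma comb3 (a e : ℤ) (v t : ℕ) (ha : ¬ (3 : ℤ) ∣ a) :
    ∃ w : ℤ, (a + 9 * e) ^ (3 ^ v * t) = a ^ (3 ^ v * t) + 3 ^ (v + 2) * w ∧
    (3 : ℤ) ∣ a * w - t * e * a ^ (3 ^ v * t) := by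
  obtain ⟨q, h1, h2⟩ := step3 a e v
  obtain ⟨w, h3, h4⟩ := stept (a ^ (3 ^ v)) q (v + 2) t (by omega)
  refine ⟨w, ?_, ?_⟩
  · rw [pow_mul, h1, h3, pow_mul]
  · have hp : Prime (3 : ℤ) := Int.prime_three
    have hA : ¬ (3 : ℤ) ∣ a ^ (3 ^ v) := fun h => ha (hp.dvd_of_dvd_pow h)
    have : (3 : ℤ) ∣ a ^ (3 ^ v) * (a * w - t * e * a ^ (3 ^ v * t)) := by
      obtain ⟨k, hk⟩ := h2
      obtain ⟨l, hl⟩ := h4
      refine ⟨a * l + t * k * (a ^ (3 ^ v)) ^ t, ?_⟩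
      rw [pow_mul]
      linear_combination a * hl + t * (a ^ (3 ^ v)) ^ t * hk
    exact (hp.dvd_or_dvd this).resolve_left hA

lemma key (s u : ℕ) (hs : 4 ≤ s) :
    ¬ (3 : ℤ) ^ s ∣ (3640 ^ s - 220 ^ s) * 10 ^ u - 91 ^ s * (10 ^ s - 1) := by
  intro h
  obtain ⟨v, t, ht, hst⟩ : ∃ v t : ℕ, ¬ 3 ∣ t ∧ s = 3 ^ v * t :=
    Nat.exists_eq_pow_mul_and_not_dvd (by omega) 3 (by norm_num)
  have hv : s ≤ v + 2 := by
    by_contra hlt
    push Not at hlt
    obtain ⟨w1, h1, h2⟩ := comb3 220 380 v t (by norm_num)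
    obtain ⟨w2, h3, h4⟩ := comb3 91 91 v t (by norm_num)
    rw [← hst] at h1 h2 h3 h4
    norm_num at h1 h3
    have h5 : (3 : ℤ) ^ (v + 3) ∣ (3640 ^ s - 220 ^ s) * 10 ^ u - 91 ^ s * (10 ^ s - 1) :=
      (pow_dvd_pow 3 (by omega)).trans h
    have h6 : ((3640 : ℤ) ^ s - 220 ^ s) * 10 ^ u - 91 ^ s * (10 ^ s - 1)
        = 3 ^ (v + 2) * (w1 * 10 ^ u - w2) := by
      have : (910 : ℤ) ^ s = 91 ^ s * 10 ^ s := by rw [← mul_pow]; norm_num
      rw [h1]
      linear_combination this - h3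
    rw [h6, pow_succ] at h5
    have h7 : (3 : ℤ) ∣ w1 * 10 ^ u - w2 :=
      (mul_dvd_mul_iff_left (pow_ne_zero _ (by norm_num))).mp h5
    -- reduce mod 3
    have e1 : ∀ n : ℕ, (10 : ℤ) ^ n ≡ 1 [ZMOD 3] := fun n => by
      simpa using (show (10 : ℤ) ≡ 1 [ZMOD 3] by decide).pow n
    have e2 : ∀ n : ℕ, (220 : ℤ) ^ n ≡ 1 [ZMOD 3] := fun n => by
      simpa using (show (220 : ℤ) ≡ 1 [ZMOD 3] by decide).pow n
    have e3 : ∀ n : ℕ, (91 : ℤ) ^ n ≡ 1 [ZMOD 3] := fun n => by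
      simpa using (show (91 : ℤ) ≡ 1 [ZMOD 3] by decide).pow n
    have f1 : w1 * 10 ^ u ≡ w1 * 1 [ZMOD 3] := (Int.ModEq.refl _).mul (e1 u)
    have f2 : (t : ℤ) * 380 * 220 ^ s ≡ t * 380 * 1 [ZMOD 3] := (Int.ModEq.refl _).mul (e2 s)
    have f3 : (t : ℤ) * 91 * 91 ^ s ≡ t * 91 * 1 [ZMOD 3] := (Int.ModEq.refl _).mul (e3 s)
    have ht' : ¬ (3 : ℤ) ∣ t := by
      intro h; exact ht (by exact_mod_cast h)
    unfold Int.ModEq at f1 f2 f3
    omega
  have h3 : 3 ^ v ≤ s := by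
    rw [hst]
    have : 0 < t := by
      rcases Nat.eq_zero_or_pos t with h0 | h0
      · exfalso; apply ht; simp [h0]
      · exact h0
    exact Nat.le_mul_of_pos_right _ this
  have h4 : 1 + v * 2 ≤ 3 ^ v := by
    have := one_add_mul_le_pow (R := ℤ) (a := 2) (by norm_num) v
    norm_num at this
    exact_mod_cast this
  omega

/-- The integer binomial product. -/
def ap (m k : ℕ) : ℤ := (m.choose k : ℤ) * ((m + k).choose k : ℤ)

lemma five_pow_dvd (s u : ℕ) (h : (5 : ℤ) ^ (s + 1) ∣ 6 ^ u - 1) : 5 ^ s ∣ u := by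
  have hL := Int.emultiplicity_pow_sub_pow (p := 5) Nat.prime_five (by decide)
    (x := 6) (y := 1) (by norm_num) (by norm_num) u
  rw [one_pow] at hL
  have h1 : ((s + 1 : ℕ) : ℕ∞) ≤ emultiplicity ((5 : ℕ) : ℤ) (6 ^ u - 1) :=
    le_emultiplicity_of_pow_dvd (by exact_mod_cast h)
  have h2 : emultiplicity ((5 : ℕ) : ℤ) (6 - 1) = 1 := by
    have h5 : ((5 : ℕ) : ℤ) = 5 := by norm_num
    have h6 : (6 : ℤ) - 1 = 5 := by norm_num
    rw [h5, h6]
    exact (Int.finiteMultiplicity_iff.mpr ⟨by norm_num, by norm_num⟩).emultiplicity_self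
  rw [hL, h2] at h1
  have h3 : (s : ℕ∞) ≤ emultiplicity 5 u := by
    push_cast at h1
    rw [add_comm] at h1
    exact (ENat.add_le_add_iff_left (by norm_num)).mp h1
  exact pow_dvd_of_le_emultiplicity h3

lemma eqs (r s : ℕ) (z : ℕ → ℤ)
    (hsys : ∀ m ≤ 8, ∑ k ∈ range (m + 1), (ap m k) ^ r = ∑ k ∈ range (m + 1), (ap m k) ^ s * z k) :
    z 0 = 1 ∧ 1 + 2 ^ r = z 0 + 2 ^ s * z 1 ∧ 1 + 6 ^ r + 6 ^ r = z 0 + 6 ^ s * z 1 + 6 ^ s * z 2 ∧
    1 + 12 ^ r + 30 ^ r + 20 ^ r = z 0 + 12 ^ s * z 1 + 30 ^ s * z 2 + 20 ^ s * z 3 ∧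
    1 + 42 ^ r + 420 ^ r + 1680 ^ r + 3150 ^ r + 2772 ^ r + 924 ^ r
      = z 0 + 42 ^ s * z 1 + 420 ^ s * z 2 + 1680 ^ s * z 3 + 3150 ^ s * z 4 + 2772 ^ s * z 5
        + 924 ^ s * z 6 ∧
    1 + 72 ^ r + 1260 ^ r + 9240 ^ r + 34650 ^ r + 72072 ^ r + 84084 ^ r + 51480 ^ r + 12870 ^ r
      = z 0 + 72 ^ s * z 1 + 1260 ^ s * z 2 + 9240 ^ s * z 3 + 34650 ^ s * z 4 + 72072 ^ s * z 5
        + 84084 ^ s * z 6 + 51480 ^ s * z 7 + 12870 ^ s * z 8 := by
  have e0 := hsys 0 (by norm_num)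
  have e1 := hsys 1 (by norm_num)
  have e2 := hsys 2 (by norm_num)
  have e3 := hsys 3 (by norm_num)
  have e6 := hsys 6 (by norm_num)
  have e8 := hsys 8 (by norm_num)
  simp only [sum_range_succ, range_zero, sum_empty, ap, zero_add, Nat.choose_zero_right] at e0 e1 e2 e3 e6 e8
  norm_num [Nat.choose] at e0 e1 e2 e3 e6 e8
  refine ⟨e0.symm, by linarith, by linarith, by linarith, by linarith, by linarith⟩


lemma five (s' u : ℕ) (z1 z2 z3 : ℤ) (hz1 : z1 = 2 ^ u)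
    (e3 : 1 + 12 ^ (s' + 1 + u) + 30 ^ (s' + 1 + u) + 20 ^ (s' + 1 + u)
      = 1 + 12 ^ (s' + 1) * z1 + 30 ^ (s' + 1) * z2 + 20 ^ (s' + 1) * z3) : 5 ^ s' ∣ u := by
  have h5 : (5 : ℤ) ^ (s' + 1) ∣ 12 ^ (s' + 1) * 2 ^ u * (6 ^ u - 1) := by
    have hA : (12 : ℤ) ^ (s' + 1) * 2 ^ u * (6 ^ u - 1)
        = 5 ^ (s' + 1) * (6 ^ (s' + 1) * z2 + 4 ^ (s' + 1) * z3
          - 6 ^ (s' + 1) * 30 ^ u - 4 ^ (s' + 1) * 20 ^ u) := by
      have a1 : (30 : ℤ) ^ (s' + 1) = 5 ^ (s' + 1) * 6 ^ (s' + 1) := by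
        rw [← mul_pow]; norm_num
      have a2 : (20 : ℤ) ^ (s' + 1) = 5 ^ (s' + 1) * 4 ^ (s' + 1) := by
        rw [← mul_pow]; norm_num
      have a3 : (12 : ℤ) ^ u = 2 ^ u * 6 ^ u := by rw [← mul_pow]; norm_num
      rw [hz1, pow_add _ (s' + 1) u, pow_add _ (s' + 1) u, pow_add _ (s' + 1) u, a1, a2, a3] at e3
      linear_combination e3
    exact ⟨_, hA⟩
  have hc : IsCoprime ((5 : ℤ) ^ (s' + 1)) (12 ^ (s' + 1) * 2 ^ u) := by
    apply IsCoprime.mul_right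
    · exact (show IsCoprime (5 : ℤ) 12 by norm_num).pow
    · exact (show IsCoprime (5 : ℤ) 2 by norm_num).pow
  exact five_pow_dvd s' u (hc.dvd_of_dvd_mul_left h5)

lemma main4 (s u : ℕ) (hs : 4 ≤ s) (hu : 1 ≤ u) (z : ℕ → ℤ)
    (hkey : ¬ (3 : ℤ) ^ s ∣ (3640 ^ s - 220 ^ s) * 10 ^ u - 91 ^ s * (10 ^ s - 1))
    (hsys : ∀ m ≤ 8, ∑ k ∈ range (m + 1), (ap m k) ^ (s + u)
      = ∑ k ∈ range (m + 1), (ap m k) ^ s * z k) : False := by
  obtain ⟨e0, e1, e2, e3, e6, e8⟩ := eqs (s + u) s z hsys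
  have z1 : z 1 = 2 ^ u := by
    have h : (2 : ℤ) ^ s * z 1 = 2 ^ s * 2 ^ u := by rw [← pow_add]; linarith
    exact mul_left_cancel₀ (pow_ne_zero _ (by norm_num)) h
  have z2 : z 2 = 2 * 6 ^ u - 2 ^ u := by
    have h : (6 : ℤ) ^ s * z 2 = 6 ^ s * (2 * 6 ^ u - 2 ^ u) := by
      rw [e0, z1] at e2
      rw [pow_add] at e2
      linarith
    exact mul_left_cancel₀ (pow_ne_zero _ (by norm_num)) h
  have hus : s ≤ u := by
    obtain ⟨s', rfl⟩ : ∃ s', s = s' + 1 := ⟨s - 1, by omega⟩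
    have h7 := five s' u (z 1) (z 2) (z 3) z1 (by rw [e0] at e3; exact e3)
    have h8 : 5 ^ s' ≤ u := Nat.le_of_dvd (by omega) h7
    have h9 : s' < 5 ^ s' := Nat.lt_pow_self (by norm_num)
    omega
  have p3 : ∀ b : ℤ, ∀ n : ℕ, s ≤ n → (3 : ℤ) ^ s ∣ (3 * b) ^ n := fun b n hn =>
    (pow_dvd_pow 3 hn).trans (by rw [mul_pow]; exact Dvd.intro _ rfl)
  -- z 3 mod 3^s
  have z3 : (3 : ℤ) ^ s ∣ z 3 - 20 ^ u := by
    have hA : (20 : ℤ) ^ s * (z 3 - 20 ^ u)
        = 3 ^ s * (4 ^ s * (12 ^ u - z 1) + 10 ^ s * (30 ^ u - z 2)) := by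
      have a1 : (30 : ℤ) ^ s = 3 ^ s * 10 ^ s := by rw [← mul_pow]; norm_num
      have a2 : (12 : ℤ) ^ s = 3 ^ s * 4 ^ s := by rw [← mul_pow]; norm_num
      rw [e0, pow_add, pow_add, pow_add, a1, a2] at e3
      linear_combination -e3
    have hc : IsCoprime ((3 : ℤ) ^ s) (20 ^ s) := (show IsCoprime (3 : ℤ) 20 by norm_num).pow
    exact hc.dvd_of_dvd_mul_left ⟨_, hA⟩
  have z2' : (3 : ℤ) ^ s ∣ z 2 + 2 ^ u := by
    rw [z2]
    have : (2 : ℤ) * 6 ^ u - 2 ^ u + 2 ^ u = 2 * 6 ^ u := by ring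
    rw [this]
    exact Dvd.dvd.mul_left (by simpa using p3 2 u hus) 2
  have n9 : (9 : ℤ) ^ s = 3 ^ s * 3 ^ s := by rw [← mul_pow]; norm_num
  have c3 : (3 : ℤ) ^ s ≠ 0 := pow_ne_zero _ (by norm_num)
  have d6 : (3 : ℤ) ^ s ∣ 14 ^ s * z 1 + 140 ^ s * z 2 + 560 ^ s * z 3 + 308 ^ s * z 6 := by
    obtain ⟨k42, h42⟩ := p3 14 u hus
    obtain ⟨k420, h420⟩ := p3 140 u hus
    obtain ⟨k1680, h1680⟩ := p3 560 u hus
    obtain ⟨k924, h924⟩ := p3 308 u hus
    norm_num at h42 h420 h1680 h924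
    have a1 : (42 : ℤ) ^ s = 3 ^ s * 14 ^ s := by rw [← mul_pow]; norm_num
    have a2 : (420 : ℤ) ^ s = 3 ^ s * 140 ^ s := by rw [← mul_pow]; norm_num
    have a3 : (1680 : ℤ) ^ s = 3 ^ s * 560 ^ s := by rw [← mul_pow]; norm_num
    have a4 : (3150 : ℤ) ^ s = 3 ^ s * 3 ^ s * 350 ^ s := by
      rw [← mul_pow, ← mul_pow]; norm_num
    have a5 : (2772 : ℤ) ^ s = 3 ^ s * 3 ^ s * 308 ^ s := by
      rw [← mul_pow, ← mul_pow]; norm_num
    have a6 : (924 : ℤ) ^ s = 3 ^ s * 308 ^ s := by rw [← mul_pow]; norm_num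
    rw [e0] at e6
    simp only [pow_add, a1, a2, a3, a4, a5, a6, h42, h420, h1680, h924] at e6
    refine ⟨14 ^ s * k42 + 140 ^ s * k420 + 560 ^ s * k1680 + 350 ^ s * 3150 ^ u
      + 308 ^ s * 2772 ^ u + 308 ^ s * k924 - 350 ^ s * z 4 - 308 ^ s * z 5, ?_⟩
    apply mul_left_cancel₀ c3
    linear_combination -e6
  have d8 : (3 : ℤ) ^ s ∣ 3080 ^ s * z 3 + 28028 ^ s * z 6 := by
    obtain ⟨k1, h1⟩ := p3 3080 u hus
    obtain ⟨k2, h2⟩ := p3 28028 u hus
    norm_num at h1 h2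
    have a1 : (9240 : ℤ) ^ s = 3 ^ s * 3080 ^ s := by rw [← mul_pow]; norm_num
    have a2 : (84084 : ℤ) ^ s = 3 ^ s * 28028 ^ s := by rw [← mul_pow]; norm_num
    have a3 : (72 : ℤ) ^ s = 3 ^ s * 3 ^ s * 8 ^ s := by
      rw [← mul_pow, ← mul_pow]; norm_num
    have a4 : (1260 : ℤ) ^ s = 3 ^ s * 3 ^ s * 140 ^ s := by
      rw [← mul_pow, ← mul_pow]; norm_num
    have a5 : (34650 : ℤ) ^ s = 3 ^ s * 3 ^ s * 3850 ^ s := by
      rw [← mul_pow, ← mul_pow]; norm_num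
    have a6 : (72072 : ℤ) ^ s = 3 ^ s * 3 ^ s * 8008 ^ s := by
      rw [← mul_pow, ← mul_pow]; norm_num
    have a7 : (51480 : ℤ) ^ s = 3 ^ s * 3 ^ s * 5720 ^ s := by
      rw [← mul_pow, ← mul_pow]; norm_num
    have a8 : (12870 : ℤ) ^ s = 3 ^ s * 3 ^ s * 1430 ^ s := by
      rw [← mul_pow, ← mul_pow]; norm_num
    rw [e0] at e8
    simp only [pow_add, a1, a2, a3, a4, a5, a6, a7, a8, h1, h2] at e8
    refine ⟨3080 ^ s * k1 + 28028 ^ s * k2 + 8 ^ s * (72 ^ u - z 1) + 140 ^ s * (1260 ^ u - z 2)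
      + 3850 ^ s * (34650 ^ u - z 4) + 8008 ^ s * (72072 ^ u - z 5)
      + 5720 ^ s * (51480 ^ u - z 7) + 1430 ^ s * (12870 ^ u - z 8), ?_⟩
    apply mul_left_cancel₀ c3
    linear_combination -e8
  -- combine
  have hT : (3 : ℤ) ^ s ∣ (14 ^ s * 2 ^ u) *
      ((3640 ^ s - 220 ^ s) * 10 ^ u - 91 ^ s * (10 ^ s - 1)) := by
    obtain ⟨a, ha⟩ := z3
    obtain ⟨b, hb⟩ := z2'
    obtain ⟨c, hc⟩ := d6
    obtain ⟨d, hd⟩ := d8
    have b1 : (140 : ℤ) ^ s = 14 ^ s * 10 ^ s := by rw [← mul_pow]; norm_num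
    have b2 : (560 : ℤ) ^ s = 14 ^ s * 40 ^ s := by rw [← mul_pow]; norm_num
    have b3 : (3080 : ℤ) ^ s = 14 ^ s * 220 ^ s := by rw [← mul_pow]; norm_num
    have b4 : (3640 : ℤ) ^ s = 91 ^ s * 40 ^ s := by rw [← mul_pow]; norm_num
    have b5 : (28028 : ℤ) ^ s = 91 ^ s * 308 ^ s := by rw [← mul_pow]; norm_num
    have b6 : (20 : ℤ) ^ u = 2 ^ u * 10 ^ u := by rw [← mul_pow]; norm_num
    rw [b1, b2] at hc
    rw [b3, b5] at hd
    rw [b6] at ha
    rw [b4]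
    refine ⟨91 ^ s * c - d - 91 ^ s * 14 ^ s * 10 ^ s * b - (91 ^ s * 14 ^ s * 40 ^ s
      - 14 ^ s * 220 ^ s) * a, ?_⟩
    linear_combination 91 ^ s * hc - hd - 91 ^ s * 14 ^ s * 10 ^ s * hb
      - (91 ^ s * 14 ^ s * 40 ^ s - 14 ^ s * 220 ^ s) * ha - 91 ^ s * 14 ^ s * z1
  have hc : IsCoprime ((3 : ℤ) ^ s) (14 ^ s * 2 ^ u) := by
    apply IsCoprime.mul_right
    · exact (show IsCoprime (3 : ℤ) 14 by norm_num).pow
    · exact (show IsCoprime (3 : ℤ) 2 by norm_num).pow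
  exact hkey (hc.dvd_of_dvd_mul_left hT)

/-- natural version, via factorials so that the kernel evaluates it fast. -/
def apF (m k : ℕ) : ℕ := (m + k).descFactorial (2 * k) / (k.factorial * k.factorial)

lemma apF_eq (m k : ℕ) : m.choose k * (m + k).choose k = apF m k := by
  unfold apF
  rcases Nat.lt_or_ge m k with h | h
  · rw [Nat.choose_eq_zero_of_lt h, Nat.descFactorial_eq_zero_iff_lt.mpr (by omega)]
    simp
  · symm
    apply Nat.div_eq_of_eq_mul_left (by positivity)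
    have h1 := Nat.choose_mul (n := m + k) (k := 2 * k) (s := k) (by omega)
    have h2 : m + k - k = m := by omega
    have h3 : 2 * k - k = k := by omega
    rw [h2, h3] at h1
    have h4 := Nat.descFactorial_eq_factorial_mul_choose (m + k) (2 * k)
    have h5 := Nat.choose_mul_factorial_mul_factorial (n := 2 * k) (k := k) (by omega)
    rw [h3] at h5
    rw [h4, ← h5, mul_comm (m.choose k), ← h1]
    ring

/-- list evaluation. -/
def ev (Y : List ℕ) (n : ℕ) (g : ℕ → ℕ) : ℕ :=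
  ∑ m ∈ range (n + 1), Y.getD m 0 * ∑ k ∈ range (m + 1), g (apF m k)

def tb (TY : List (ℕ × List ℕ)) (g : ℕ → ℕ) : ℕ :=
  (TY.map (fun p => p.1 * (p.2.map g).sum)).sum

def mk (Y : List ℕ) (n : ℕ) : List (ℕ × List ℕ) :=
  (List.range (n + 1)).map (fun m => (Y.getD m 0, (List.range (m + 1)).map (apF m)))

lemma sum_range_list (n : ℕ) (f : ℕ → ℕ) : ∑ k ∈ range n, f k = ((List.range n).map f).sum := rfl

lemma ev_eq_tb (Y : List ℕ) (n : ℕ) (g : ℕ → ℕ) : ev Y n g = tb (mk Y n) g := by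
  unfold ev tb mk
  rw [sum_range_list, List.map_map]
  congr 1
  apply List.map_congr_left
  intro m _
  simp only [Function.comp, List.map_map]
  rw [sum_range_list]
  rfl

lemma tb_congr (Q : ℕ) (TY : List (ℕ × List ℕ)) (g g' : ℕ → ℕ) (h : ∀ t, g t ≡ g' t [MOD Q]) :
    tb TY g ≡ tb TY g' [MOD Q] := by
  have inner : ∀ L : List ℕ, (L.map g).sum ≡ (L.map g').sum [MOD Q] := by
    intro L
    induction L with
    | nil => exact Nat.ModEq.refl _
    | cons a L ih => simpa using (h a).add ih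
  unfold tb
  induction TY with
  | nil => exact Nat.ModEq.refl _
  | cons p TY ih =>
    simp only [List.map_cons, List.sum_cons]
    exact ((Nat.ModEq.refl _).mul (inner _)).add ih

lemma pow_period (p K : ℕ) (hp : p.Prime) (t r : ℕ) (hr : K ≤ r) :
    t ^ (r + (p ^ K).totient) ≡ t ^ r [MOD p ^ K] := by
  by_cases h : p ∣ t
  · have h1 : p ^ K ∣ t ^ r := (pow_dvd_pow_of_dvd h K).trans (pow_dvd_pow t hr)
    have h2 : p ^ K ∣ t ^ (r + (p ^ K).totient) :=
      (pow_dvd_pow_of_dvd h K).trans (pow_dvd_pow t (by omega))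
    exact ((Nat.modEq_zero_iff_dvd.mpr h2).trans (Nat.modEq_zero_iff_dvd.mpr h1).symm)
  · have hc : Nat.Coprime t (p ^ K) := ((hp.coprime_iff_not_dvd.mpr h).pow_left K).symm
    rw [pow_add]
    simpa using (Nat.ModEq.refl (t ^ r)).mul (Nat.ModEq.pow_totient hc)

lemma cert (s r n : ℕ) (hs : 0 < s) (z : ℕ → ℤ) (Y : List ℕ) (Q : ℕ)
    (hsys : ∀ m ≤ n, ∑ k ∈ range (m + 1), (apF m k : ℤ) ^ r
      = ∑ k ∈ range (m + 1), (apF m k : ℤ) ^ s * z k)
    (hY : ∀ k < n + 1, Q ∣ ∑ m ∈ range (n + 1), Y.getD m 0 * (apF m k) ^ s) :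
    Q ∣ ev Y n (fun t => t ^ r) := by
  have h0 : ∀ m k, m < k → apF m k = 0 := by
    intro m k h
    rw [← apF_eq, Nat.choose_eq_zero_of_lt h, zero_mul]
  have hY' : ∀ k < n + 1, (Q : ℤ) ∣ ∑ m ∈ range (n + 1), (Y.getD m 0 : ℤ) * (apF m k : ℤ) ^ s := by
    intro k hk
    have := hY k hk
    exact_mod_cast (Int.natCast_dvd_natCast.mpr this)
  have h1 : ((ev Y n (fun t => t ^ r) : ℕ) : ℤ)
      = ∑ m ∈ range (n + 1), (Y.getD m 0 : ℤ) *
        ∑ k ∈ range (n + 1), (apF m k : ℤ) ^ s * z k := by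
    unfold ev
    push_cast
    apply sum_congr rfl
    intro m hm
    rw [hsys m (by have := mem_range.mp hm; omega)]
    congr 1
    apply sum_subset
    · intro x hx
      have := mem_range.mp hx
      have := mem_range.mp hm
      exact mem_range.mpr (by omega)
    · intro x hx hx'
      rw [h0 m x (by have h := mt mem_range.mpr hx'; omega)]
      simp [hs.ne']
  have h2 : ∑ m ∈ range (n + 1), (Y.getD m 0 : ℤ) *
        ∑ k ∈ range (n + 1), (apF m k : ℤ) ^ s * z k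
      = ∑ k ∈ range (n + 1), z k * ∑ m ∈ range (n + 1), (Y.getD m 0 : ℤ) * (apF m k : ℤ) ^ s := by
    simp_rw [mul_sum]
    rw [sum_comm]
    apply sum_congr rfl
    intro k _
    apply sum_congr rfl
    intro m _
    ring
  have h3 : (Q : ℤ) ∣ ((ev Y n (fun t => t ^ r) : ℕ) : ℤ) := by
    rw [h1, h2]
    apply dvd_sum
    intro k hk
    exact Dvd.dvd.mul_left (hY' k (mem_range.mp hk)) _
  exact_mod_cast h3


def Y5 : List ℕ := [66, 0, 69, 80, 0, 28]
def Y14 : List ℕ := [540, 0, 432, 678, 0, 699, 9, 243, 558, 657, 486, 720, 368, 0, 442]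
def Y17 : List ℕ := [210, 135, 249, 477, 0, 495, 363, 594, 150, 632, 333, 79, 606, 0, 609, 416, 396, 88]
def Z13 : List ℕ := [9625, 11175, 3125, 12700, 13000, 11125, 3035, 3125, 415, 675, 11175, 3901, 0, 10674]
def Z18 : List ℕ := [12100, 13255, 10625, 11070, 4700, 5075, 853, 12000, 11407, 14815, 9215, 849, 0,
  12701, 13985, 12260, 1273, 2375, 7692]

lemma cY5 : ∀ k < 5 + 1, 81 ∣ ∑ m ∈ range (5 + 1), Y5.getD m 0 * (apF m k) ^ 2 := by decide +kernel
lemma cY14 : ∀ k < 14 + 1, 729 ∣ ∑ m ∈ range (14 + 1), Y14.getD m 0 * (apF m k) ^ 2 := by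
  decide +kernel
lemma cY17 : ∀ k < 17 + 1, 729 ∣ ∑ m ∈ range (17 + 1), Y17.getD m 0 * (apF m k) ^ 2 := by
  decide +kernel
lemma cZ13 : ∀ k < 13 + 1, 15625 ∣ ∑ m ∈ range (13 + 1), Z13.getD m 0 * (apF m k) ^ 3 := by
  decide +kernel
lemma cZ18 : ∀ k < 18 + 1, 15625 ∣ ∑ m ∈ range (18 + 1), Z18.getD m 0 * (apF m k) ^ 3 := by
  decide +kernel

def T5 : List (ℕ × List ℕ) := [
  (66, [1]),
  (0, [1, 2]),
  (69, [1, 6, 6]),
  (80, [1, 12, 30, 20]),
  (0, [1, 20, 90, 140, 70]),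
  (28, [1, 30, 210, 560, 630, 252])]

def T14 : List (ℕ × List ℕ) := [
  (540, [1]),
  (0, [1, 2]),
  (432, [1, 6, 6]),
  (678, [1, 12, 30, 20]),
  (0, [1, 20, 90, 140, 70]),
  (699, [1, 30, 210, 560, 630, 252]),
  (9, [1, 42, 420, 1680, 3150, 2772, 924]),
  (243, [1, 56, 756, 4200, 11550, 16632, 12012, 3432]),
  (558, [1, 72, 1260, 9240, 34650, 72072, 84084, 51480, 12870]),
  (657, [1, 90, 1980, 18480, 90090, 252252, 420420, 411840, 218790, 48620]),
  (486, [1, 110, 2970, 34320, 210210, 756756, 1681680, 2333760, 1969110, 923780, 184756]),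
  (720, [1, 132, 4290, 60060, 450450, 2018016, 5717712, 10501920, 12471030, 9237800, 3879876,
    705432]),
  (368, [1, 156, 6006, 100100, 900900, 4900896, 17153136, 39907296, 62355150, 64664600, 42678636,
    16224936, 2704156]),
  (0, [1, 182, 8190, 160160, 1701700, 11027016, 46558512, 133024320, 261891630, 355655300,
    327202876, 194699232, 67603900, 10400600]),
  (442, [1, 210, 10920, 247520, 3063060, 23279256, 116396280, 399072960, 960269310, 1636014380,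
    1963217256, 1622493600, 878850700, 280816200, 40116600])]

def T17 : List (ℕ × List ℕ) := [
  (210, [1]),
  (135, [1, 2]),
  (249, [1, 6, 6]),
  (477, [1, 12, 30, 20]),
  (0, [1, 20, 90, 140, 70]),
  (495, [1, 30, 210, 560, 630, 252]),
  (363, [1, 42, 420, 1680, 3150, 2772, 924]),
  (594, [1, 56, 756, 4200, 11550, 16632, 12012, 3432]),
  (150, [1, 72, 1260, 9240, 34650, 72072, 84084, 51480, 12870]),
  (632, [1, 90, 1980, 18480, 90090, 252252, 420420, 411840, 218790, 48620]),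
  (333, [1, 110, 2970, 34320, 210210, 756756, 1681680, 2333760, 1969110, 923780, 184756]),
  (79, [1, 132, 4290, 60060, 450450, 2018016, 5717712, 10501920, 12471030, 9237800, 3879876,
    705432]),
  (606, [1, 156, 6006, 100100, 900900, 4900896, 17153136, 39907296, 62355150, 64664600, 42678636,
    16224936, 2704156]),
  (0, [1, 182, 8190, 160160, 1701700, 11027016, 46558512, 133024320, 261891630, 355655300,
    327202876, 194699232, 67603900, 10400600]),
  (609, [1, 210, 10920, 247520, 3063060, 23279256, 116396280, 399072960, 960269310, 1636014380,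
    1963217256, 1622493600, 878850700, 280816200, 40116600]),
  (416, [1, 240, 14280, 371280, 5290740, 46558512, 271591320, 1097450640, 3155170590, 6544057520,
    9816086280, 10546208400, 7909656300, 3931426800, 1163381400, 155117520]),
  (396, [1, 272, 18360, 542640, 8817900, 88884432, 597500904, 2804596080, 9465511770, 23371634000,
    42536373880, 56949525360, 55367594100, 38003792400, 17450721000, 4808643120, 601080390]),
  (88, [1, 306, 23256, 775200, 14244300, 162954792, 1249320072, 6731030592, 26293088250,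
    75957810500, 164068870680, 265764451680, 321132045780, 285028443000, 180324117000,
    76938289920, 19835652870, 2333606220])]

def U13 : List (ℕ × List ℕ) := [
  (9625, [1]),
  (11175, [1, 2]),
  (3125, [1, 6, 6]),
  (12700, [1, 12, 30, 20]),
  (13000, [1, 20, 90, 140, 70]),
  (11125, [1, 30, 210, 560, 630, 252]),
  (3035, [1, 42, 420, 1680, 3150, 2772, 924]),
  (3125, [1, 56, 756, 4200, 11550, 16632, 12012, 3432]),
  (415, [1, 72, 1260, 9240, 34650, 72072, 84084, 51480, 12870]),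
  (675, [1, 90, 1980, 18480, 90090, 252252, 420420, 411840, 218790, 48620]),
  (11175, [1, 110, 2970, 34320, 210210, 756756, 1681680, 2333760, 1969110, 923780, 184756]),
  (3901, [1, 132, 4290, 60060, 450450, 2018016, 5717712, 10501920, 12471030, 9237800, 3879876,
    705432]),
  (0, [1, 156, 6006, 100100, 900900, 4900896, 17153136, 39907296, 62355150, 64664600, 42678636,
    16224936, 2704156]),
  (10674, [1, 182, 8190, 160160, 1701700, 11027016, 46558512, 133024320, 261891630, 355655300,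
    327202876, 194699232, 67603900, 10400600])]

def U18 : List (ℕ × List ℕ) := [
  (12100, [1]),
  (13255, [1, 2]),
  (10625, [1, 6, 6]),
  (11070, [1, 12, 30, 20]),
  (4700, [1, 20, 90, 140, 70]),
  (5075, [1, 30, 210, 560, 630, 252]),
  (853, [1, 42, 420, 1680, 3150, 2772, 924]),
  (12000, [1, 56, 756, 4200, 11550, 16632, 12012, 3432]),
  (11407, [1, 72, 1260, 9240, 34650, 72072, 84084, 51480, 12870]),
  (14815, [1, 90, 1980, 18480, 90090, 252252, 420420, 411840, 218790, 48620]),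
  (9215, [1, 110, 2970, 34320, 210210, 756756, 1681680, 2333760, 1969110, 923780, 184756]),
  (849, [1, 132, 4290, 60060, 450450, 2018016, 5717712, 10501920, 12471030, 9237800, 3879876,
    705432]),
  (0, [1, 156, 6006, 100100, 900900, 4900896, 17153136, 39907296, 62355150, 64664600, 42678636,
    16224936, 2704156]),
  (12701, [1, 182, 8190, 160160, 1701700, 11027016, 46558512, 133024320, 261891630, 355655300,
    327202876, 194699232, 67603900, 10400600]),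
  (13985, [1, 210, 10920, 247520, 3063060, 23279256, 116396280, 399072960, 960269310, 1636014380,
    1963217256, 1622493600, 878850700, 280816200, 40116600]),
  (12260, [1, 240, 14280, 371280, 5290740, 46558512, 271591320, 1097450640, 3155170590,
    6544057520, 9816086280, 10546208400, 7909656300, 3931426800, 1163381400, 155117520]),
  (1273, [1, 272, 18360, 542640, 8817900, 88884432, 597500904, 2804596080, 9465511770,
    23371634000, 42536373880, 56949525360, 55367594100, 38003792400, 17450721000, 4808643120,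
    601080390]),
  (2375, [1, 306, 23256, 775200, 14244300, 162954792, 1249320072, 6731030592, 26293088250,
    75957810500, 164068870680, 265764451680, 321132045780, 285028443000, 180324117000,
    76938289920, 19835652870, 2333606220]),
  (7692, [1, 342, 29070, 1085280, 22383900, 288304632, 2498640144, 15297796800, 68362029450,
    227873431500, 574241047380, 1101024156960, 1605660228900, 1767176346600, 1442592936000,
    846321189120, 337206098790, 81676217700, 9075135300])]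

lemma mT5 : mk Y5 5 = T5 := by decide +kernel
lemma mT14 : mk Y14 14 = T14 := by decide +kernel
lemma mT17 : mk Y17 17 = T17 := by decide +kernel
lemma mU13 : mk Z13 13 = U13 := by decide +kernel
lemma mU18 : mk Z18 18 = U18 := by decide +kernel

def chk2 (r : ℕ) : Bool :=
  !((tb T5 (fun t => t ^ r % 729) % 81 == 0) && (tb T14 (fun t => t ^ r % 729) % 729 == 0)
    && (tb T17 (fun t => t ^ r % 729) % 729 == 0))

lemma fin2 : ∀ r < 492, 3 ≤ r → chk2 r = true := by decide +kernel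

def chk3 (w : ℕ) : Bool :=
  !((tb U13 (fun t => (t ^ 3 % 15625) * ((t ^ 25 % 15625) ^ w % 15625)) % 15625 == 0)
    && (tb U18 (fun t => (t ^ 3 % 15625) * ((t ^ 25 % 15625) ^ w % 15625)) % 15625 == 0))

lemma fin3 : ∀ w < 501, 1 ≤ w → chk3 w = true := by decide +kernel

lemma tb_dvd (Q R : ℕ) (hR : R ∣ Q) (TY : List (ℕ × List ℕ)) (g g' : ℕ → ℕ)
    (h : ∀ t, g t ≡ g' t [MOD Q]) (hd : R ∣ tb TY g') : R ∣ tb TY g :=
  ((tb_congr Q TY g g' h).of_dvd hR).dvd_iff (dvd_refl R) |>.mpr hd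

lemma no2 (r : ℕ) : 3 ≤ r → ¬ (81 ∣ tb T5 (fun t => t ^ r) ∧ 729 ∣ tb T14 (fun t => t ^ r) ∧
    729 ∣ tb T17 (fun t => t ^ r)) := by
  have tot : (3 ^ 6).totient = 486 := by
    rw [Nat.totient_prime_pow Nat.prime_three (by norm_num)]; norm_num
  induction r using Nat.strong_induction_on with
  | _ r ih =>
    intro h3
    rintro ⟨h5, h14, h17⟩
    by_cases hr : r < 492
    · have hc := fin2 r hr h3
      have cg : ∀ t : ℕ, t ^ r % 729 ≡ t ^ r [MOD 729] := fun t => Nat.mod_modEq _ _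
      have g5 := Nat.mod_eq_zero_of_dvd (tb_dvd 729 81 (by norm_num) T5 _ _ cg h5)
      have g14 := Nat.mod_eq_zero_of_dvd (tb_dvd 729 729 (by norm_num) T14 _ _ cg h14)
      have g17 := Nat.mod_eq_zero_of_dvd (tb_dvd 729 729 (by norm_num) T17 _ _ cg h17)
      unfold chk2 at hc
      rw [g5, g14, g17] at hc
      exact absurd hc (by decide)
    · obtain ⟨r', rfl⟩ : ∃ r', r = r' + 486 := ⟨r - 486, by omega⟩
      have cg : ∀ t : ℕ, t ^ r' ≡ t ^ (r' + 486) [MOD 729] := fun t => by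
        have := pow_period 3 6 Nat.prime_three t r' (by omega)
        rw [tot, show 3 ^ 6 = 729 by norm_num] at this
        exact this.symm
      exact ih r' (by omega) (by omega) ⟨tb_dvd 729 81 (by norm_num) T5 _ _ cg h5,
        tb_dvd 729 729 (by norm_num) T14 _ _ cg h14, tb_dvd 729 729 (by norm_num) T17 _ _ cg h17⟩

lemma no3 (w : ℕ) : 1 ≤ w → ¬ (15625 ∣ tb U13 (fun t => t ^ (3 + 25 * w)) ∧
    15625 ∣ tb U18 (fun t => t ^ (3 + 25 * w))) := by
  have tot : (5 ^ 6).totient = 12500 := by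
    rw [Nat.totient_prime_pow Nat.prime_five (by norm_num)]; norm_num
  induction w using Nat.strong_induction_on with
  | _ w ih =>
    intro h1
    rintro ⟨h13, h18⟩
    by_cases hw : w < 501
    · have hc := fin3 w hw h1
      have cg : ∀ t : ℕ, (t ^ 3 % 15625) * ((t ^ 25 % 15625) ^ w % 15625)
          ≡ t ^ (3 + 25 * w) [MOD 15625] := fun t => by
        rw [pow_add, pow_mul]
        exact (Nat.mod_modEq _ _).mul ((Nat.mod_modEq _ _).trans ((Nat.mod_modEq _ _).pow w))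
      have g13 := Nat.mod_eq_zero_of_dvd (tb_dvd 15625 15625 (by norm_num) U13 _ _ cg h13)
      have g18 := Nat.mod_eq_zero_of_dvd (tb_dvd 15625 15625 (by norm_num) U18 _ _ cg h18)
      unfold chk3 at hc
      rw [g13, g18] at hc
      exact absurd hc (by decide)
    · obtain ⟨w', rfl⟩ : ∃ w', w = w' + 500 := ⟨w - 500, by omega⟩
      have cg : ∀ t : ℕ, t ^ (3 + 25 * w') ≡ t ^ (3 + 25 * (w' + 500)) [MOD 15625] := fun t => by
        have := pow_period 5 6 Nat.prime_five t (3 + 25 * w') (by omega)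
        rw [tot, show 5 ^ 6 = 15625 by norm_num,
          show 3 + 25 * w' + 12500 = 3 + 25 * (w' + 500) by ring] at this
        exact this.symm
      exact ih w' (by omega) (by omega) ⟨tb_dvd 15625 15625 (by norm_num) U13 _ _ cg h13,
        tb_dvd 15625 15625 (by norm_num) U18 _ _ cg h18⟩

/-- The coefficients, computed from the triangular system. -/
noncomputable def co (r s : ℕ) : ℕ → ℚ
  | n => (∑ k ∈ Finset.range (n + 1), (n.choose k : ℚ) ^ r * ((n + k).choose k : ℚ) ^ r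
      - ∑ k : Fin n, (n.choose k : ℚ) ^ s * ((n + k).choose k : ℚ) ^ s * co r s k)
      / ((n.choose n : ℚ) ^ s * ((n + n).choose n : ℚ) ^ s)
  termination_by n => n
  decreasing_by exact k.2

lemma diag_ne (n s : ℕ) : ((n.choose n : ℚ) ^ s * ((n + n).choose n : ℚ) ^ s) ≠ 0 := by
  have h1 : n.choose n ≠ 0 := by simp
  have h2 : (n + n).choose n ≠ 0 := (Nat.choose_pos (by omega)).ne'
  have h3 : (n.choose n : ℚ) ≠ 0 := by exact_mod_cast h1
  have h4 : ((n + n).choose n : ℚ) ≠ 0 := by exact_mod_cast h2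
  exact mul_ne_zero (pow_ne_zero _ h3) (pow_ne_zero _ h4)

lemma co_spec (r s : ℕ) : IsCoeff r s (co r s) := by
  intro n
  rw [sum_range_succ (fun k => (n.choose k : ℚ) ^ s * ((n + k).choose k : ℚ) ^ s * co r s k),
    sum_range (fun k => (n.choose k : ℚ) ^ s * ((n + k).choose k : ℚ) ^ s * co r s k)]
  conv_rhs => rw [co]
  rw [mul_div_cancel₀ _ (diag_ne n s)]
  ring

lemma co_unique (r s : ℕ) (c : ℕ → ℚ) (h : IsCoeff r s c) : c = co r s := by
  funext n
  induction n using Nat.strong_induction_on with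
  | _ n ih =>
    have h1 := h n
    have h2 := co_spec r s n
    rw [sum_range_succ (fun k => (n.choose k : ℚ) ^ s * ((n + k).choose k : ℚ) ^ s * c k)] at h1
    rw [sum_range_succ (fun k => (n.choose k : ℚ) ^ s * ((n + k).choose k : ℚ) ^ s * co r s k)]
      at h2
    have h3 : ∑ k ∈ range n, (n.choose k : ℚ) ^ s * ((n + k).choose k : ℚ) ^ s * c k
        = ∑ k ∈ range n, (n.choose k : ℚ) ^ s * ((n + k).choose k : ℚ) ^ s * co r s k := by
      apply sum_congr rfl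
      intro k hk
      rw [ih k (mem_range.mp hk)]
    rw [h3] at h1
    apply mul_left_cancel₀ (diag_ne n s)
    linarith

/-- Passing to an integer system. -/
lemma int_system (r s N : ℕ) (c : ℕ → ℚ) (h : IsCoeff r s c)
    (hint : ∀ k ≤ N, ∃ z : ℤ, c k = (z : ℚ)) :
    ∃ z : ℕ → ℤ, ∀ m ≤ N, ∑ k ∈ range (m + 1), (ap m k) ^ r
      = ∑ k ∈ range (m + 1), (ap m k) ^ s * z k := by
  classical
  choose! z hz using hint
  refine ⟨z, ?_⟩
  intro m hm
  have h1 := h m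
  have h2 : ∑ k ∈ range (m + 1), (m.choose k : ℚ) ^ s * ((m + k).choose k : ℚ) ^ s * c k
      = ∑ k ∈ range (m + 1), (m.choose k : ℚ) ^ s * ((m + k).choose k : ℚ) ^ s * (z k : ℚ) := by
    apply sum_congr rfl
    intro k hk
    rw [hz k (by have := mem_range.mp hk; omega)]
  rw [h2] at h1
  have h3 : ((∑ k ∈ range (m + 1), (ap m k) ^ r : ℤ) : ℚ)
      = ((∑ k ∈ range (m + 1), (ap m k) ^ s * z k : ℤ) : ℚ) := by
    unfold ap
    push_cast
    simp only [mul_pow]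
    exact h1
  exact_mod_cast h3

lemma ap_eq_apF (m k : ℕ) : ap m k = (apF m k : ℤ) := by
  rw [← apF_eq]
  unfold ap
  push_cast
  rfl

lemma to_apF (r s N : ℕ) (z : ℕ → ℤ) (h : ∀ m ≤ N, ∑ k ∈ range (m + 1), (ap m k) ^ r
      = ∑ k ∈ range (m + 1), (ap m k) ^ s * z k) :
    ∀ m ≤ N, ∑ k ∈ range (m + 1), (apF m k : ℤ) ^ r
      = ∑ k ∈ range (m + 1), (apF m k : ℤ) ^ s * z k := by
  intro m hm
  have := h m hm
  simpa only [ap_eq_apF] using this

theorem result :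
    (∀ r s : ℕ, 0 < r → 0 < s → ∃! c : ℕ → ℚ, IsCoeff r s c) ∧
    (∀ s : ℕ, 1 < s → ∀ r : ℕ, s < r → ∀ c : ℕ → ℚ, IsCoeff r s c →
      ∃ k ≤ 18, (4 ≤ s → k ≤ 8) ∧ ∀ z : ℤ, c k ≠ (z : ℚ)) := by
  refine ⟨fun r s _ _ => ⟨co r s, co_spec r s, fun c hc => co_unique r s c hc⟩, ?_⟩
  intro s hs r hr c hc
  by_contra hcon
  push Not at hcon
  rcases Nat.lt_or_ge s 4 with h4 | h4
  · have hint : ∀ k ≤ 18, ∃ z : ℤ, c k = (z : ℚ) := fun k hk => hcon k hk (by omega)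
    obtain ⟨z, hz⟩ := int_system r s 18 c hc hint
    have hz' := to_apF r s 18 z hz
    obtain rfl | rfl : s = 2 ∨ s = 3 := by omega
    · apply no2 r (by omega)
      rw [← mT5, ← mT14, ← mT17, ← ev_eq_tb, ← ev_eq_tb, ← ev_eq_tb]
      exact ⟨cert 2 r 5 (by norm_num) z Y5 81 (fun m hm => hz' m (by omega)) cY5,
        cert 2 r 14 (by norm_num) z Y14 729 (fun m hm => hz' m (by omega)) cY14,
        cert 2 r 17 (by norm_num) z Y17 729 (fun m hm => hz' m (by omega)) cY17⟩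
    · obtain ⟨u, rfl⟩ : ∃ u, r = 3 + u := ⟨r - 3, by omega⟩
      have h25 : 25 ∣ u := by
        obtain ⟨e0, e1, e2, e3, _, _⟩ := eqs (3 + u) 3 z (fun m hm => hz m (by omega))
        have z1 : z 1 = 2 ^ u := by
          have h : (2 : ℤ) ^ 3 * z 1 = 2 ^ 3 * 2 ^ u := by rw [← pow_add]; linarith
          exact mul_left_cancel₀ (pow_ne_zero _ (by norm_num)) h
        have := five 2 u (z 1) (z 2) (z 3) z1 (by rw [e0] at e3; exact e3)
        simpa using this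
      obtain ⟨w, rfl⟩ := h25
      apply no3 w (by omega)
      rw [← mU13, ← mU18, ← ev_eq_tb, ← ev_eq_tb]
      exact ⟨cert 3 _ 13 (by norm_num) z Z13 15625 (fun m hm => hz' m (by omega)) cZ13,
        cert 3 _ 18 (by norm_num) z Z18 15625 (fun m hm => hz' m (by omega)) cZ18⟩
  · have hint : ∀ k ≤ 8, ∃ z : ℤ, c k = (z : ℚ) := fun k hk =>
      hcon k (by omega) (fun _ => hk)
    obtain ⟨z, hz⟩ := int_system r s 8 c hc hint
    obtain ⟨u, rfl⟩ : ∃ u, r = s + u := ⟨r - s, by omega⟩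
    exact main4 s u h4 (by omega) z (key s u h4) hz

end Pool.Agent.Results.MP_ee0f4e_nt.NeverIntegral
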